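import Pool.Agent.ZPU.Stmts

/-!
# ZPU, row NWT: Newton
-/

set_option autoImplicit false

namespace Pool.Agent.ZPU.H38

open Polynomial Pool.Agent.ZPT Pool.Agent.ZP3

theorem nwt (hURR : URRStmt) : NWTStmt := by
  intro p hp K _ _ _ hK k _ r hr P y m hP hy hpm hev
  obtain ⟨_, _, _, hu, _⟩ := hURR p hp K hK
  rw [X_pow_dvd_iff]
  by_contra hno
  push Not at hno
  classical
  have hex : ∃ d, (P.map r).coeff d ≠ 0 := ⟨hno.choose, hno.choose_spec.2⟩
  set j := Nat.find hex with hj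
  have hj1 : (P.map r).coeff j ≠ 0 := Nat.find_spec hex
  have hj2 : ∀ i, i < j → (P.map r).coeff i = 0 := fun i hi => by
    by_contra h
    exact Nat.find_min hex hi h
  have hjm : j ≤ m := by
    obtain ⟨d, hd, hd'⟩ := hno
    exact (Nat.find_min' hex hd').trans (Nat.lt_succ_iff.1 hd)
  have hcj : ‖((P.coeff j : OO K) : K)‖ = 1 := by
    refine le_antisymm (P.coeff j).2 (not_lt.1 fun h => hj1 ?_)
    rw [coeff_map]
    exact (hr _).2 h
  have hci : ∀ i, i < j → ‖((P.coeff i : OO K) : K)‖ ≤ (p : ℝ)⁻¹ := fun i hi => by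
    refine hu _ (hP i) ?_
    have h := hj2 i hi
    rw [coeff_map] at h
    exact (hr _).1 h
  have hp0 : (0 : ℝ) ≤ (p : ℝ)⁻¹ := inv_nonneg.2 (Nat.cast_nonneg p)
  have hmj : ‖y‖ ^ m ≤ ‖y‖ ^ j := pow_le_pow_of_le_one (norm_nonneg _) hy.le hjm
  have hj0 : 0 < ‖y‖ ^ j := hp0.trans_lt (hpm.trans_le hmj)
  have hjn : j ∈ Finset.range (P.natDegree + 1) := by
    rw [Finset.mem_range, Nat.lt_succ_iff]
    refine le_natDegree_of_ne_zero fun h => ?_
    rw [h] at hcj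
    simp at hcj
  have hsum : evO P y = ∑ i ∈ Finset.range (P.natDegree + 1), ((P.coeff i : OO K) : K) * y ^ i := by
    unfold evO
    rw [eval₂_eq_sum_range]
    rfl
  rw [← Finset.add_sum_erase _ _ hjn] at hsum
  set T : K := ∑ i ∈ (Finset.range (P.natDegree + 1)).erase j,
    ((P.coeff i : OO K) : K) * y ^ i with hT
  have hterm : ∀ i, i ≠ j → ‖((P.coeff i : OO K) : K) * y ^ i‖ < ‖y‖ ^ j := by
    intro i hij
    rw [norm_mul, norm_pow]
    rcases lt_or_gt_of_ne hij with h | h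
    · calc ‖((P.coeff i : OO K) : K)‖ * ‖y‖ ^ i ≤ (p : ℝ)⁻¹ * 1 :=
            mul_le_mul (hci i h) (pow_le_one₀ (norm_nonneg _) hy.le)
              (pow_nonneg (norm_nonneg _) _) hp0
        _ = (p : ℝ)⁻¹ := mul_one _
        _ < ‖y‖ ^ m := hpm
        _ ≤ ‖y‖ ^ j := hmj
    · have h1 : ‖y‖ ^ i = ‖y‖ ^ j * ‖y‖ ^ (i - j) := by
        rw [← pow_add]; congr 1; omega
      have h2 : ‖y‖ ^ (i - j) < 1 := pow_lt_one₀ (norm_nonneg _) hy (by omega)
      have h3 : ‖((P.coeff i : OO K) : K)‖ ≤ 1 := (P.coeff i).2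
      calc ‖((P.coeff i : OO K) : K)‖ * ‖y‖ ^ i ≤ 1 * ‖y‖ ^ i :=
            mul_le_mul_of_nonneg_right h3 (pow_nonneg (norm_nonneg _) _)
        _ = ‖y‖ ^ j * ‖y‖ ^ (i - j) := by rw [one_mul, h1]
        _ < ‖y‖ ^ j * 1 := mul_lt_mul_of_pos_left h2 hj0
        _ = ‖y‖ ^ j := mul_one _
  have hTn : ‖T‖ < ‖y‖ ^ j := by
    rcases ((Finset.range (P.natDegree + 1)).erase j).eq_empty_or_nonempty with h0 | h0
    · rw [hT, h0, Finset.sum_empty, norm_zero]
      exact hj0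
    · obtain ⟨i, hi, hle⟩ := IsUltrametricDist.exists_norm_finsetSum_le_of_nonempty h0
        (fun i => ((P.coeff i : OO K) : K) * y ^ i)
      exact hle.trans_lt (hterm i (Finset.mem_erase.1 hi).1)
  have hmain : ‖((P.coeff j : OO K) : K) * y ^ j‖ < ‖y‖ ^ j := by
    have h1 : ((P.coeff j : OO K) : K) * y ^ j = evO P y + -T := by
      rw [hsum]; ring
    rw [h1]
    refine (IsUltrametricDist.norm_add_le_max _ _).trans_lt (max_lt (hev.trans_le hmj) ?_)
    rw [norm_neg]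
    exact hTn
  rw [norm_mul, norm_pow, hcj, one_mul] at hmain
  exact lt_irrefl _ hmain

end Pool.Agent.ZPU.H38
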